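import Pool.Agent.Helper53.PT.GoalsB

/-!
# MP_705522_gt, packet RG: lower bound of the derivative of `f1/f0` on cells, convex minorant
-/

namespace Pool.Agent.Helper13.PT

open MeasureTheory Set Filter Topology
open Pool.Agent.Helper53.PT

lemma min_conv {W0 W1 a l : ℝ} (hW0 : 0 ≤ W0) (ha : 0 ≤ a) (hl0 : 0 ≤ l) (hl1 : l ≤ 1) :
    min W0 (W1 * (1 + a)) ≤ ((1 - l) * W0 + l * W1) * (1 + a * l) := by
  rcases le_total W0 W1 with h | h
  · refine (min_le_left _ _).trans ?_
    have h1 : W0 ≤ (1 - l) * W0 + l * W1 := by nlinarith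
    have h2 : 0 ≤ a * l := mul_nonneg ha hl0
    calc W0 ≤ ((1 - l) * W0 + l * W1) * 1 := by linarith
      _ ≤ ((1 - l) * W0 + l * W1) * (1 + a * l) :=
          mul_le_mul_of_nonneg_left (by linarith) (by linarith)
  · have e : ((1 - l) * W0 + l * W1) * (1 + a * l) =
        (1 - l) * W0 + l * (W1 * (1 + a)) + a * l * (1 - l) * (W0 - W1) := by ring
    rw [e]
    have h1 : 0 ≤ a * l * (1 - l) * (W0 - W1) :=
      mul_nonneg (mul_nonneg (mul_nonneg ha hl0) (by linarith)) (by linarith)
    have h2 : min W0 (W1 * (1 + a)) ≤ W0 := min_le_left _ _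
    have h3 : min W0 (W1 * (1 + a)) ≤ W1 * (1 + a) := min_le_right _ _
    have h4 : (1 - l) * min W0 (W1 * (1 + a)) ≤ (1 - l) * W0 :=
      mul_le_mul_of_nonneg_left h2 (by linarith)
    have h5 : l * min W0 (W1 * (1 + a)) ≤ l * (W1 * (1 + a)) :=
      mul_le_mul_of_nonneg_left h3 hl0
    linarith

/-- Decay of `f0` on a cell. -/
lemma f0_decay (hRL : GRL) {θ z m xW xD yN : ℝ} (hF : FA θ z m xW xD yN) {x0 x r0 : ℝ}
    (hx0 : 0 ≤ x0) (hx : x0 ≤ x) (hxz : x < z) (hr0 : r0 ≤ rr θ x0) :
    f0 θ x ≤ f0 θ x0 * Real.exp (-(r0 * (x - x0) / 2)) := by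
  obtain ⟨h1, h2, h3, h4, h5, h6, h7, h8, h9, h10, h11, h12, h13, h14, h15⟩ :=
    hRL θ z m xW xD yN hF
  have hth0 : 0 < θ := by linarith [hF.th0]
  have hder : ∀ y, 0 ≤ y → y < z → HasDerivAt (fun y => Real.log (f0 θ y) + r0 * y / 2)
      ((-(f1 θ y) / 2) / f0 θ y + r0 / 2) y := by
    intro y hy0 hyz
    have hp := h2 y hy0 hyz
    have d1 := (hasDerivAt_f0 hth0 hF.th1 y).log hp.ne'
    have d2 : HasDerivAt (fun y : ℝ => r0 * y / 2) (r0 / 2) y := by
      have := ((hasDerivAt_id y).const_mul r0).div_const 2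
      simpa using this
    exact d1.add d2
  have hanti : AntitoneOn (fun y => Real.log (f0 θ y) + r0 * y / 2) (Icc x0 x) := by
    apply antitoneOn_of_deriv_nonpos (convex_Icc _ _)
    · intro y hy
      exact (hder y (hx0.trans hy.1) (lt_of_le_of_lt hy.2 hxz)).continuousAt.continuousWithinAt
    · intro y hy
      rw [interior_Icc] at hy
      exact (hder y (hx0.trans hy.1.le) (hy.2.trans hxz)).differentiableAt.differentiableWithinAt
    · intro y hy
      rw [interior_Icc] at hy
      rw [(hder y (hx0.trans hy.1.le) (hy.2.trans hxz)).deriv]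
      have hm : rr θ x0 ≤ rr θ y := h6.monotoneOn ⟨hx0, lt_of_lt_of_le hy.1 hy.2.le |>.trans hxz⟩
        ⟨hx0.trans hy.1.le, hy.2.trans hxz⟩ hy.1.le
      have e : (-(f1 θ y) / 2) / f0 θ y = -(rr θ y) / 2 := by
        unfold rr; ring
      rw [e]; linarith
  have hle := hanti ⟨le_rfl, hx⟩ ⟨hx, le_rfl⟩ hx
  simp only at hle
  have p0 := h2 x0 hx0 (lt_of_le_of_lt hx hxz)
  have p1 := h2 x (hx0.trans hx) hxz
  have hlog : Real.log (f0 θ x) ≤ Real.log (f0 θ x0) + -(r0 * (x - x0) / 2) := by linarith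
  calc f0 θ x = Real.exp (Real.log (f0 θ x)) := (Real.exp_log p1).symm
    _ ≤ Real.exp (Real.log (f0 θ x0) + -(r0 * (x - x0) / 2)) := Real.exp_le_exp.2 hlog
    _ = _ := by rw [Real.exp_add, Real.exp_log p0]

theorem gRHO : GRHO := by
  intro hCH hRL θ z m xW xD yN hF x0 h S F W0 W1 r0 pu ρ hx0 hh hz hS hFb hW0 hW0' hW1 hr0 hr0' hpu
    hρ x hx1 hx2
  have hth0 : 0 < θ := by linarith [hF.th0]
  have hxz : x < z := lt_of_le_of_lt hx2 hz
  have hx0' : 0 ≤ x := hx0.trans hx1
  have hpos : ∀ y, 0 ≤ y → y < z → 0 < f0 θ y := (hRL θ z m xW xD yN hF).2.1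
  have hfx := hpos x hx0' hxz
  have hWx : 0 < Wf θ x := hF.W x hx0' (hxz.le.trans hF.zW)
  rcases le_or_gt ρ 0 with hneg | hρ0
  · exact hneg.trans (by positivity)
  · rw [le_div_iff₀ (by positivity)]
    set l : ℝ := (x - x0) / h with hl
    have hl0 : 0 ≤ l := div_nonneg (by linarith) hh.le
    have hl1 : l ≤ 1 := by rw [hl, div_le_one hh]; linarith
    have hxl : x0 + l * h = x := by rw [hl]; field_simp; ring
    have hch := ((hCH θ hth0 hF.th1 x0 h l S F hx0 hh hl0 hl1).2.1 hS).2.2.2 hFb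
    rw [hxl] at hch
    set s : ℝ := h ^ 2 / 8 * (S ^ 2 / 2 + F * (mo θ 4 / 840)) with hs
    have hF0 : 0 ≤ F := (abs_nonneg _).trans (hFb x0 le_rfl (by linarith))
    have hmo : 0 < mo θ 4 := mo_pos hth0 (by linarith [hF.th1]) 4
    have hs0 : 0 ≤ s := by rw [hs]; positivity
    have hdec := f0_decay hRL hF hx0 hx1 hxz hr0'
    have hf0x0 := hpos x0 hx0 (by linarith)
    have ha0 : 0 ≤ r0 * h := mul_nonneg hr0 hh.le
    have hal : 0 ≤ r0 * h * l := mul_nonneg ha0 hl0
    have hal1 : r0 * h * l ≤ r0 * h := by nlinarith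
    -- the square of `f0`
    have hsq : f0 θ x ^ 2 * (1 + r0 * h * l) ≤ pu ^ 2 := by
      have e1 : r0 * (x - x0) = r0 * h * l := by rw [hl]; field_simp
      have h1 : f0 θ x ≤ pu * Real.exp (-(r0 * h * l / 2)) := by
        rw [← e1]
        exact hdec.trans (mul_le_mul_of_nonneg_right hpu (Real.exp_pos _).le)
      have h2 : f0 θ x ^ 2 ≤ (pu * Real.exp (-(r0 * h * l / 2))) ^ 2 :=
        pow_le_pow_left₀ hfx.le h1 2
      have h3 : (pu * Real.exp (-(r0 * h * l / 2))) ^ 2 = pu ^ 2 * Real.exp (-(r0 * h * l)) := by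
        rw [mul_pow, ← Real.exp_nat_mul]; congr 2; push_cast; ring
      rw [h3] at h2
      have h4 : 1 + r0 * h * l ≤ Real.exp (r0 * h * l) := by
        linarith [Real.add_one_le_exp (r0 * h * l)]
      calc f0 θ x ^ 2 * (1 + r0 * h * l)
          ≤ (pu ^ 2 * Real.exp (-(r0 * h * l))) * Real.exp (r0 * h * l) :=
            mul_le_mul h2 h4 (by linarith) (by positivity)
        _ = pu ^ 2 := by rw [mul_assoc, ← Real.exp_add]; simp
    have hmin := min_conv (W1 := W1) hW0 ha0 hl0 hl1
    have hw : (1 - l) * W0 + l * W1 ≤ (1 - l) * Wf θ x0 + l * Wf θ (x0 + h) :=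
      add_le_add (mul_le_mul_of_nonneg_left hW0' (by linarith)) (mul_le_mul_of_nonneg_left hW1 hl0)
    have hfin : ρ * f0 θ x ^ 2 * (1 + r0 * h * l) ≤ Wf θ x * (1 + r0 * h * l) := by
      calc ρ * f0 θ x ^ 2 * (1 + r0 * h * l) = ρ * (f0 θ x ^ 2 * (1 + r0 * h * l)) := by ring
        _ ≤ ρ * pu ^ 2 := mul_le_mul_of_nonneg_left hsq hρ0.le
        _ ≤ min W0 (W1 * (1 + r0 * h)) - s * (1 + r0 * h) := hρ
        _ ≤ ((1 - l) * W0 + l * W1) * (1 + r0 * h * l) - s * (1 + r0 * h * l) := by
            have := mul_le_mul_of_nonneg_left hal1 hs0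
            linarith
        _ = ((1 - l) * W0 + l * W1 - s) * (1 + r0 * h * l) := by ring
        _ ≤ Wf θ x * (1 + r0 * h * l) :=
            mul_le_mul_of_nonneg_right (by linarith) (by linarith)
    exact le_of_mul_le_mul_right hfin (by linarith)

/-- Cells cover the interval. -/
lemma exists_cell {x : ℕ → ℝ} {k : ℕ} {y : ℝ} (hy : x k ≤ y) :
    ∀ n, k ≤ n → y < x n → ∃ i, k ≤ i ∧ i < n ∧ x i ≤ y ∧ y < x (i + 1) := by
  intro n hn
  induction n, hn using Nat.le_induction with
  | base => intro h; exact absurd h (not_lt.2 hy)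
  | succ n hn ih =>
    intro h
    rcases lt_or_ge y (x n) with h1 | h1
    · obtain ⟨i, a, b, c, d⟩ := ih h1
      exact ⟨i, a, by omega, c, d⟩
    · exact ⟨n, hn, Nat.lt_succ_self n, h1, h⟩

lemma mono_nodes {x : ℕ → ℝ} {K : ℕ} (h : ∀ k < K, x k < x (k + 1)) {i : ℕ} :
    ∀ j, i ≤ j → j ≤ K → x i ≤ x j := by
  intro j hj
  induction j, hj using Nat.le_induction with
  | base => intro _; exact le_rfl
  | succ n hn ih =>
    intro hK
    exact (ih (by omega)).trans (h n (by omega)).le

lemma mono_rho {ρ : ℕ → ℝ} {K : ℕ} (h : ∀ k, k + 1 < K → ρ k ≤ ρ (k + 1)) {i : ℕ} :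
    ∀ j, i ≤ j → j < K → ρ i ≤ ρ j := by
  intro j hj
  induction j, hj using Nat.le_induction with
  | base => intro _; exact le_rfl
  | succ n hn ih =>
    intro hK
    exact (ih (by omega)).trans (h n hK)

theorem gRG : GRG := by
  intro hRL θ z m xW xD yN hF K x ρ J hx0 hx hxK hK hρ hJ0 hJ hW
  obtain ⟨-, hpos, -, -, hder, -⟩ := hRL θ z m xW xD yN hF
  have hxmono : ∀ i j, i ≤ j → j ≤ K → x i ≤ x j := fun i j hij hj => mono_nodes hx j hij hj
  have hx0' : ∀ j ≤ K, 0 ≤ x j := fun j hj => by rw [← hx0]; exact hxmono 0 j (Nat.zero_le _) hj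
  have hd : ∀ y, 0 ≤ y → y ≤ x K → HasDerivAt (rr θ) (Wf θ y / f0 θ y ^ 2) y := fun y h1 h2 =>
    hder y (hpos y h1 (lt_of_le_of_lt h2 hxK)).ne'
  -- the last item
  have h4 : ∀ k < K, ∀ y y', x k ≤ y → y ≤ y' → y' ≤ x K → ρ k * (y' - y) ≤ rr θ y' - rr θ y := by
    intro k hk y y' hy hyy hy'
    have hm : MonotoneOn (fun y => rr θ y - ρ k * y) (Icc (x k) (x K)) := by
      have hdd : ∀ y, x k ≤ y → y ≤ x K → HasDerivAt (fun y => rr θ y - ρ k * y)
          (Wf θ y / f0 θ y ^ 2 - ρ k) y := by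
        intro y h1 h2
        have d2 : HasDerivAt (fun y : ℝ => ρ k * y) (ρ k) y := by
          have := (hasDerivAt_id y).const_mul (ρ k)
          simpa using this
        exact (hd y ((hx0' k hk.le).trans h1) h2).sub d2
      apply monotoneOn_of_deriv_nonneg (convex_Icc _ _)
      · intro y hy
        exact (hdd y hy.1 hy.2).continuousAt.continuousWithinAt
      · intro y hy
        rw [interior_Icc] at hy
        exact (hdd y hy.1.le hy.2.le).differentiableAt.differentiableWithinAt
      · intro y hy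
        rw [interior_Icc] at hy
        rw [(hdd y hy.1.le hy.2.le).deriv]
        obtain ⟨i, hi1, hi2, hi3, hi4⟩ := exists_cell hy.1.le K hk.le hy.2
        have e1 := hW i hi2 y hi3 hi4
        have e2 := mono_rho hρ i hi1 hi2
        linarith
    have := hm ⟨hy, hyy.trans hy'⟩ ⟨hy.trans hyy, hy'⟩ hyy
    simp only at this
    linarith
  -- the function `R`
  have hne : (Finset.range K).Nonempty := Finset.nonempty_range_iff.2 (by omega)
  set R : ℝ → ℝ := fun y => (Finset.range K).sup' hne (fun k => J k + (y - x k) * ρ k) with hR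
  have hcell : ∀ k < K, ∀ y, x k ≤ y → y ≤ x (k + 1) → R y = J k + (y - x k) * ρ k := by
    intro k hk y hy1 hy2
    apply le_antisymm
    · apply Finset.sup'_le
      intro i hi
      rw [Finset.mem_range] at hi
      have hstep : ∀ j, j + 1 < K → J (j + 1) + (y - x (j + 1)) * ρ (j + 1) =
          J j + (y - x j) * ρ j + (y - x (j + 1)) * (ρ (j + 1) - ρ j) := by
        intro j hj
        rw [hJ j (by omega)]; ring
      rcases le_total i k with hik | hki
      · -- below
        have key : ∀ j, i ≤ j → j ≤ k → J i + (y - x i) * ρ i ≤ J j + (y - x j) * ρ j := by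
          intro j hj
          induction j, hj using Nat.le_induction with
          | base => intro _; exact le_rfl
          | succ n hn ih =>
            intro hnk
            rw [hstep n (by omega)]
            have e1 : 0 ≤ y - x (n + 1) := by
              linarith [hxmono (n + 1) k hnk hk.le]
            have e2 : 0 ≤ ρ (n + 1) - ρ n := by linarith [hρ n (by omega)]
            have := ih (by omega)
            have := mul_nonneg e1 e2
            linarith
        exact key k hik le_rfl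
      · have key : ∀ j, k ≤ j → j < K → J j + (y - x j) * ρ j ≤ J k + (y - x k) * ρ k := by
          intro j hj
          induction j, hj using Nat.le_induction with
          | base => intro _; exact le_rfl
          | succ n hn ih =>
            intro hnk
            rw [hstep n (by omega)]
            have e1 : y - x (n + 1) ≤ 0 := by
              linarith [hxmono (k + 1) (n + 1) (by omega) (by omega)]
            have e2 : 0 ≤ ρ (n + 1) - ρ n := by linarith [hρ n (by omega)]
            have := ih (by omega)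
            have := mul_nonpos_of_nonpos_of_nonneg e1 e2
            linarith
        exact key i hki hi
    · exact Finset.le_sup' (fun k => J k + (y - x k) * ρ k) (Finset.mem_range.2 hk)
  refine ⟨R, ⟨convex_Icc _ _, ?_⟩, hcell, ?_, h4⟩
  · intro y _ y' _ a b ha hb hab
    simp only [smul_eq_mul]
    apply Finset.sup'_le
    intro k hk
    have e1 : J k + (y - x k) * ρ k ≤ R y := Finset.le_sup' (fun k => J k + (y - x k) * ρ k) hk
    have e2 : J k + (y' - x k) * ρ k ≤ R y' := Finset.le_sup' (fun k => J k + (y' - x k) * ρ k) hk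
    have e3 : J k + (a * y + b * y' - x k) * ρ k =
        a * (J k + (y - x k) * ρ k) + b * (J k + (y' - x k) * ρ k) := by
      have : J k = (a + b) * J k := by rw [hab, one_mul]
      have h2 : x k = (a + b) * x k := by rw [hab, one_mul]
      calc J k + (a * y + b * y' - x k) * ρ k
          = (a + b) * J k + (a * y + b * y' - (a + b) * x k) * ρ k := by rw [hab]; ring
        _ = _ := by ring
    rw [e3]
    exact add_le_add (mul_le_mul_of_nonneg_left e1 ha) (mul_le_mul_of_nonneg_left e2 hb)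
  · -- `rr - R` is monotone
    have hm : ∀ k ≤ K, MonotoneOn (fun y => rr θ y - R y) (Icc 0 (x k)) := by
      intro k
      induction k with
      | zero =>
        intro _ y hy y' hy' _
        rw [hx0] at hy hy'
        have e1 : y = 0 := le_antisymm hy.2 hy.1
        have e2 : y' = 0 := le_antisymm hy'.2 hy'.1
        rw [e1, e2]
      | succ k ih =>
        intro hk
        have h1 := ih (by omega)
        have h2 : MonotoneOn (fun y => rr θ y - R y) (Icc (x k) (x (k + 1))) := by
          intro y hy y' hy' hyy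
          simp only
          rw [hcell k (by omega) y hy.1 hy.2, hcell k (by omega) y' hy'.1 hy'.2]
          have := h4 k (by omega) y y' hy.1 hyy (hy'.2.trans (hxmono (k + 1) K hk le_rfl))
          linarith
        have h3 : Icc 0 (x (k + 1)) = Icc 0 (x k) ∪ Icc (x k) (x (k + 1)) :=
          (Icc_union_Icc_eq_Icc (hx0' k (by omega)) (hx k (by omega)).le).symm
        rw [h3]
        exact h1.union_right h2 (isGreatest_Icc (hx0' k (by omega)))
          (isLeast_Icc (hx k (by omega)).le)
    intro y y' hy hyy hy'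
    have := hm K le_rfl ⟨hy, hyy.trans hy'⟩ ⟨hy.trans hyy, hy'⟩ hyy
    simp only at this
    linarith

end Pool.Agent.Helper13.PT
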