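import Pool.Agent.Helper53.PT.GoalsD
import Pool.Agent.Helper53.PT.B

/-!
# Packet PT-RST (MP_705522_gt, project of helper53): the loop of the product bound
-/

set_option autoImplicit false

namespace Pool.Agent.Helper13.PT

open Pool.Agent.Helper53.PT

/-! ### the loop -/

/-- the loop of `N.rst` -/
def lp (D : N.Tab) (al : Bool) (r cap m0 m1 Q ul X0 X1 x1 : ℕ) (fuel : ℕ) : ℕ → ℕ → ℕ → ℕ :=
  Nat.rec (motive := fun _ => Nat → Nat → Nat → Nat) (fun _ Mp best => N.mx best Mp)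
    (fun _ ih j Mp best => N.frc (Nat.succ (Nat.shiftRight (Nat.mul Mp (N.mM D)) 40)) (fun Mj =>
      cond (Nat.ble Mj best) best
      (cond (Nat.ble (N.mulU m1 X1) (Nat.mul j (N.zL D))) best
      (cond (Nat.ble (Nat.succ r) j) (cond (Nat.beq r 0)
          (cond (cond al true (Nat.beq (Nat.mod j 2) 1))
            (N.frc (N.restJ D r cap m0 m1 Q ul X0 X1 x1 j Mp best) (fun b => ih (Nat.succ j) Mj b))
            (ih (Nat.succ j) Mj best)) best)
        (cond (cond al true (Nat.beq (Nat.mod j 2) 1))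
          (N.frc (N.restJ D r cap m0 m1 Q ul X0 X1 x1 j Mp best) (fun b => ih (Nat.succ j) Mj b))
          (ih (Nat.succ j) Mj best)))))) fuel

theorem rst_eq (D : N.Tab) (al : Bool) (r cap m0 m1 Q ul X0 X1 x1 : ℕ) :
    N.rst D al r cap m0 m1 Q ul X0 X1 x1 = lp D al r cap m0 m1 Q ul X0 X1 x1 40 1 1099511627776
      (cond al (N.expUp (Nat.shiftLeft (N.mulL m0 X0) 13)) 0) := rfl

theorem frc_eq {α : Type} (n : ℕ) (f : ℕ → α) : N.frc n f = f n := by
  cases n <;> rfl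

theorem lp_zero (D : N.Tab) (al : Bool) (r cap m0 m1 Q ul X0 X1 x1 j Mp best : ℕ) :
    lp D al r cap m0 m1 Q ul X0 X1 x1 0 j Mp best = N.mx best Mp := rfl

theorem lp_succ (D : N.Tab) (al : Bool) (r cap m0 m1 Q ul X0 X1 x1 fuel j Mp best : ℕ) :
    lp D al r cap m0 m1 Q ul X0 X1 x1 (fuel + 1) j Mp best =
      if Mp * N.mM D / 2 ^ 40 + 1 ≤ best then best
      else if N.mulU m1 X1 ≤ j * N.zL D then best
      else if r + 1 ≤ j ∧ r ≠ 0 then best
      else if al = true ∨ j % 2 = 1 then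
        lp D al r cap m0 m1 Q ul X0 X1 x1 fuel (j + 1) (Mp * N.mM D / 2 ^ 40 + 1)
          (N.restJ D r cap m0 m1 Q ul X0 X1 x1 j Mp best)
      else lp D al r cap m0 m1 Q ul X0 X1 x1 fuel (j + 1) (Mp * N.mM D / 2 ^ 40 + 1) best := by
  have e0 : Nat.succ (Nat.shiftRight (Nat.mul Mp (N.mM D)) 40) = Mp * N.mM D / 2 ^ 40 + 1 := by
    have : Nat.shiftRight (Nat.mul Mp (N.mM D)) 40 = Mp * N.mM D / 2 ^ 40 :=
      Nat.shiftRight_eq_div_pow _ _
    rw [this]
  have e1 : lp D al r cap m0 m1 Q ul X0 X1 x1 (fuel + 1) j Mp best =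
      N.frc (Nat.succ (Nat.shiftRight (Nat.mul Mp (N.mM D)) 40)) (fun Mj =>
      cond (Nat.ble Mj best) best
      (cond (Nat.ble (N.mulU m1 X1) (Nat.mul j (N.zL D))) best
      (cond (Nat.ble (Nat.succ r) j) (cond (Nat.beq r 0)
          (cond (cond al true (Nat.beq (Nat.mod j 2) 1))
            (N.frc (N.restJ D r cap m0 m1 Q ul X0 X1 x1 j Mp best)
              (fun b => lp D al r cap m0 m1 Q ul X0 X1 x1 fuel (Nat.succ j) Mj b))
            (lp D al r cap m0 m1 Q ul X0 X1 x1 fuel (Nat.succ j) Mj best)) best)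
        (cond (cond al true (Nat.beq (Nat.mod j 2) 1))
          (N.frc (N.restJ D r cap m0 m1 Q ul X0 X1 x1 j Mp best)
            (fun b => lp D al r cap m0 m1 Q ul X0 X1 x1 fuel (Nat.succ j) Mj b))
          (lp D al r cap m0 m1 Q ul X0 X1 x1 fuel (Nat.succ j) Mj best))))) := rfl
  rw [e1, frc_eq, frc_eq, e0]
  have b1 : ∀ a b : ℕ, Nat.ble a b = decide (a ≤ b) := by
    intro a b
    by_cases h : a ≤ b
    · rw [Nat.ble_eq_true_of_le h, decide_eq_true h]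
    · have : Nat.ble a b = false := by
        by_contra hc
        exact h (Nat.le_of_ble_eq_true (by simpa using hc))
      rw [this, decide_eq_false h]
  have b2 : ∀ a b : ℕ, Nat.beq a b = decide (a = b) := by
    intro a b
    by_cases h : a = b
    · subst h
      rw [decide_eq_true rfl]
      exact Nat.beq_refl a
    · have : Nat.beq a b = false := by
        by_contra hc
        exact h (Nat.eq_of_beq_eq_true (by simpa using hc))
      rw [this, decide_eq_false h]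
  have e2 : (cond al true (Nat.beq (Nat.mod j 2) 1)) = decide (al = true ∨ j % 2 = 1) := by
    cases al
    · show Nat.beq (j % 2) 1 = _
      rw [b2]
      simp
    · simp
  rw [e2, b1, b1, b1, b2]
  simp only [cond_eq_ite, decide_eq_true_eq]
  have e3 : Nat.mul j (N.zL D) = j * N.zL D := rfl
  have e4 : Nat.succ r = r + 1 := rfl
  have e5 : Nat.succ j = j + 1 := rfl
  rw [e3, e4, e5]
  by_cases h1 : Mp * N.mM D / 2 ^ 40 + 1 ≤ best
  · rw [if_pos h1, if_pos h1]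
  · rw [if_neg h1, if_neg h1]
    by_cases h2 : N.mulU m1 X1 ≤ j * N.zL D
    · rw [if_pos h2, if_pos h2]
    · rw [if_neg h2, if_neg h2]
      by_cases h3 : r + 1 ≤ j
      · rw [if_pos h3]
        by_cases h4 : r = 0
        · rw [if_pos h4, if_neg (fun h : r + 1 ≤ j ∧ r ≠ 0 => h.2 h4)]
        · rw [if_neg h4, if_pos (show r + 1 ≤ j ∧ r ≠ 0 from ⟨h3, h4⟩)]
      · rw [if_neg h3, if_neg (fun h : r + 1 ≤ j ∧ r ≠ 0 => h3 h.1)]

/-! ### rounding -/

theorem vR_mono {a b : ℕ} (h : a ≤ b) : vR a ≤ vR b := by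
  unfold vR
  have : (a : ℝ) ≤ b := by exact_mod_cast h
  exact div_le_div_of_nonneg_right this (by positivity)

theorem vR_nonneg (a : ℕ) : 0 ≤ vR a := by unfold vR; positivity

theorem aR_nonneg (a : ℕ) : 0 ≤ aR a := by unfold aR; positivity

theorem vR_mul (a b : ℕ) : vR a * vR b ≤ vR (a * b / 2 ^ 40 + 1) := by
  have h1 : (a * b : ℕ) < (a * b / 2 ^ 40 + 1) * 2 ^ 40 := by
    have := Nat.div_add_mod (a * b) (2 ^ 40)
    have h2 := Nat.mod_lt (a * b) (show 0 < 2 ^ 40 by norm_num)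
    omega
  have h3 : ((a * b : ℕ) : ℝ) < ((a * b / 2 ^ 40 + 1 : ℕ) : ℝ) * 2 ^ 40 := by exact_mod_cast h1
  unfold vR
  rw [div_mul_div_comm, div_le_div_iff₀ (by positivity) (by positivity)]
  push_cast at h3 ⊢
  nlinarith

theorem aR_mulL (m X : ℕ) : aR (N.mulL m X) ≤ aR m * ((X : ℝ) / 64) := by
  have e : N.mulL m X = m * X / 2 ^ 6 := Nat.shiftRight_eq_div_pow _ _
  rw [e]
  have h1 : (m * X / 2 ^ 6) * 2 ^ 6 ≤ m * X := Nat.div_mul_le_self _ _
  have h2 : ((m * X / 2 ^ 6 : ℕ) : ℝ) * 2 ^ 6 ≤ (m : ℝ) * X := by exact_mod_cast h1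
  unfold aR
  rw [div_mul_div_comm, div_le_div_iff₀ (by positivity) (by positivity)]
  nlinarith

theorem aR_mulU (m X : ℕ) : aR m * ((X : ℝ) / 64) ≤ aR (N.mulU m X) := by
  have e : N.mulU m X = (m * X + 63) / 2 ^ 6 := Nat.shiftRight_eq_div_pow _ _
  rw [e]
  have h1 : m * X ≤ ((m * X + 63) / 2 ^ 6) * 2 ^ 6 := by
    have := Nat.div_add_mod (m * X + 63) (2 ^ 6)
    have h2 := Nat.mod_lt (m * X + 63) (show 0 < 2 ^ 6 by norm_num)
    omega
  have h2 : (m : ℝ) * X ≤ (((m * X + 63) / 2 ^ 6 : ℕ) : ℝ) * 2 ^ 6 := by exact_mod_cast h1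
  unfold aR
  rw [div_mul_div_comm, div_le_div_iff₀ (by positivity) (by positivity)]
  nlinarith

/-! ### the invariant -/

/-- the alternative for one `j` -/
def Alt (D : N.Tab) (θ z : ℝ) (r cap m0 m1 Q ul X0 X1 x1 : ℕ) (B : ℝ) (j : ℕ) : Prop :=
  (∃ τ : ℝ, 0 ≤ τ ∧ TauOK r j (aR cap) (aR m0) (aR m1) ((Q : ℝ) / 2 ^ 52) τ ∧
    τ * ((X1 : ℝ) / 64) ≤ z) ∨
    ∃ τ yl yu U P : ℝ, 0 ≤ τ ∧ TauOK r j (aR cap) (aR m0) (aR m1) ((Q : ℝ) / 2 ^ 52) τ ∧
    (yl ≤ z ∨ (0 < r ∧ j * yl ≤ aR m0 * ((X0 : ℝ) / 64) - ((r : ℝ) - j) * z)) ∧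
    (yu ≤ yl ∨ yu ≤ z ∨ yu ≤ aR ul * ((X0 : ℝ) / 64)) ∧
    UOK θ z (xR D.I.kW) j yl yu (τ * ((X1 : ℝ) / 64)) (aR x1) U ∧
    POK θ z r j (aR m0 - j * τ) ((X0 : ℝ) / 64) P ∧ U * P ≤ B

theorem Alt.mono {D : N.Tab} {θ z : ℝ} {r cap m0 m1 Q ul X0 X1 x1 : ℕ} {B B' : ℝ} {j : ℕ}
    (h : B ≤ B') (hA : Alt D θ z r cap m0 m1 Q ul X0 X1 x1 B j) :
    Alt D θ z r cap m0 m1 Q ul X0 X1 x1 B' j := by
  rcases hA with hA | ⟨τ, yl, yu, U, P, h1, h2, h3, h4, h5, h6, h7⟩
  · exact Or.inl hA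
  · exact Or.inr ⟨τ, yl, yu, U, P, h1, h2, h3, h4, h5, h6, h7.trans h⟩

theorem loop_inv (D : N.Tab) (θ z : ℝ) (hTF : TF D θ z) (al : Bool)
    (r cap m0 m1 Q ul X0 X1 x1 : ℕ)
    (hJ : ∀ j Mp best : ℕ, 1 ≤ j → vR (N.mM D) ^ (j - 1) ≤ vR Mp →
      best ≤ N.restJ D r cap m0 m1 Q ul X0 X1 x1 j Mp best ∧
      Alt D θ z r cap m0 m1 Q ul X0 X1 x1 (vR (N.restJ D r cap m0 m1 Q ul X0 X1 x1 j Mp best)) j) :
    ∀ (fuel j Mp best : ℕ), 1 ≤ j → vR (N.mM D) ^ (j - 1) ≤ vR Mp →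
      best ≤ lp D al r cap m0 m1 Q ul X0 X1 x1 fuel j Mp best ∧
      ∃ J : ℕ, j ≤ J + 1 ∧
        (∀ j' : ℕ, j ≤ j' → j' ≤ J → (al = true ∨ Odd j') → Alt D θ z r cap m0 m1 Q ul X0 X1 x1
          (vR (lp D al r cap m0 m1 Q ul X0 X1 x1 fuel j Mp best)) j') ∧
        (aR m1 * ((X1 : ℝ) / 64) ≤ ((J : ℝ) + 1) * z ∨ (1 ≤ r ∧ r ≤ J) ∨
          ∃ M : ℝ, (∀ y, z ≤ y → |f0 θ y| ≤ M) ∧ M ≤ 1 ∧
            M ^ (J + 1) ≤ vR (lp D al r cap m0 m1 Q ul X0 X1 x1 fuel j Mp best)) := by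
  have hM0 : 0 ≤ vR (N.mM D) := vR_nonneg _
  have hM1 : vR (N.mM D) ≤ 1 := by
    have h := hTF.mM
    unfold vR
    rw [div_le_one (by positivity)]
    have : (N.mM D : ℝ) < 2 ^ 40 := by exact_mod_cast h
    exact this.le
  have hz : xR D.I.kz < z := hTF.zl
  intro fuel
  induction fuel with
  | zero =>
    intro j Mp best hj hMp
    rw [lp_zero]
    have hmx : N.mx best Mp = max best Mp := by
      unfold N.mx
      by_cases h : best ≤ Mp
      · rw [Nat.ble_eq_true_of_le h, max_eq_right h]; rfl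
      · have : Nat.ble best Mp = false := by
          by_contra hc
          exact h (Nat.le_of_ble_eq_true (by simpa using hc))
        rw [this, max_eq_left (by omega)]; rfl
    rw [hmx]
    refine ⟨le_max_left _ _, j - 1, by omega, fun j' h1 h2 => by omega, Or.inr (Or.inr ?_)⟩
    refine ⟨vR (N.mM D), hTF.mb, hM1, ?_⟩
    have e : j - 1 + 1 = (j - 1) + 1 := rfl
    rw [pow_succ]
    calc vR (N.mM D) ^ (j - 1) * vR (N.mM D) ≤ vR (N.mM D) ^ (j - 1) * 1 :=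
          mul_le_mul_of_nonneg_left hM1 (by positivity)
      _ = vR (N.mM D) ^ (j - 1) := mul_one _
      _ ≤ vR Mp := hMp
      _ ≤ vR (max best Mp) := vR_mono (le_max_right _ _)
  | succ fuel ih =>
    intro j Mp best hj hMp
    rw [lp_succ]
    have hMj : vR (N.mM D) ^ (j + 1 - 1) ≤ vR (Mp * N.mM D / 2 ^ 40 + 1) := by
      have e : j + 1 - 1 = (j - 1) + 1 := by omega
      rw [e, pow_succ]
      exact (mul_le_mul_of_nonneg_right hMp hM0).trans (vR_mul _ _)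
    have hMj' : vR (N.mM D) ^ (j - 1 + 1) ≤ vR (Mp * N.mM D / 2 ^ 40 + 1) := by
      have e : j - 1 + 1 = j + 1 - 1 := by omega
      rw [e]
      exact hMj
    by_cases h1 : Mp * N.mM D / 2 ^ 40 + 1 ≤ best
    · rw [if_pos h1]
      refine ⟨le_rfl, j - 1, by omega, fun j' h1 h2 => by omega, Or.inr (Or.inr ?_)⟩
      exact ⟨vR (N.mM D), hTF.mb, hM1, hMj'.trans (vR_mono h1)⟩
    · rw [if_neg h1]
      by_cases h2 : N.mulU m1 X1 ≤ j * N.zL D
      · rw [if_pos h2]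
        refine ⟨le_rfl, j - 1, by omega, fun j' h1 h2 => by omega, Or.inl ?_⟩
        have e1 : (((j - 1 : ℕ) : ℝ) + 1) = j := by
          rw [Nat.cast_sub hj]; simp
        rw [e1]
        have e2 : aR (N.mulU m1 X1) ≤ j * xR D.I.kz := by
          have h3 : ((N.mulU m1 X1 : ℕ) : ℝ) ≤ (j : ℝ) * (N.zL D : ℕ) := by exact_mod_cast h2
          have e3 : xR D.I.kz = (N.zL D : ℝ) / 2 ^ 26 := rfl
          rw [e3]
          unfold aR
          rw [← mul_div_assoc]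
          exact div_le_div_of_nonneg_right h3 (by positivity)
        exact (aR_mulU m1 X1).trans (e2.trans (mul_le_mul_of_nonneg_left hz.le (Nat.cast_nonneg j)))
      · rw [if_neg h2]
        by_cases h3 : r + 1 ≤ j ∧ r ≠ 0
        · rw [if_pos h3]
          exact ⟨le_rfl, j - 1, by omega, fun j' h1 h2 => by omega,
            Or.inr (Or.inl ⟨by omega, by omega⟩)⟩
        · rw [if_neg h3]
          by_cases h4 : al = true ∨ j % 2 = 1
          · rw [if_pos h4]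
            obtain ⟨hb, hA⟩ := hJ j Mp best hj hMp
            obtain ⟨hb2, J, hJ1, hJ2, hJ3⟩ := ih (j + 1) (Mp * N.mM D / 2 ^ 40 + 1)
              (N.restJ D r cap m0 m1 Q ul X0 X1 x1 j Mp best) (by omega) hMj
            refine ⟨hb.trans hb2, J, by omega, fun j' h5 h6 h7 => ?_, hJ3⟩
            rcases Nat.lt_or_ge j j' with h8 | h8
            · exact hJ2 j' (by omega) h6 h7
            · have e : j' = j := by omega
              rw [e]
              exact hA.mono (vR_mono hb2)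
          · rw [if_neg h4]
            obtain ⟨hb2, J, hJ1, hJ2, hJ3⟩ := ih (j + 1) (Mp * N.mM D / 2 ^ 40 + 1) best
              (by omega) hMj
            refine ⟨hb2, J, by omega, fun j' h5 h6 h7 => ?_, hJ3⟩
            rcases Nat.lt_or_ge j j' with h8 | h8
            · exact hJ2 j' (by omega) h6 h7
            · have e : j' = j := by omega
              rw [e] at h7
              exfalso
              apply h4
              rcases h7 with h7 | h7
              · exact Or.inl h7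
              · exact Or.inr (Nat.odd_iff.1 h7)

/-- `GRSJ` needs `GTAUN` and `GPOW`, so these are hypotheses too. -/
theorem gRST (hT : GTAUN) (hP : GPOW) : GRST := by
  intro hR2 hRSJ hE D θ z hTF al r cap m0 m1 Q ul X0 X1 x1 hX0 hx1
  have hJ : ∀ j Mp best : ℕ, 1 ≤ j → vR (N.mM D) ^ (j - 1) ≤ vR Mp →
      best ≤ N.restJ D r cap m0 m1 Q ul X0 X1 x1 j Mp best ∧
      Alt D θ z r cap m0 m1 Q ul X0 X1 x1 (vR (N.restJ D r cap m0 m1 Q ul X0 X1 x1 j Mp best)) j :=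
    fun j Mp best hj hMp => hRSJ hT hE hP D θ z hTF r cap m0 m1 Q ul X0 X1 x1 j Mp best hj hMp
  obtain ⟨best0, hbest0⟩ : ∃ b, b = cond al (N.expUp (Nat.shiftLeft (N.mulL m0 X0) 13)) 0 := ⟨_, rfl⟩
  rw [rst_eq, ← hbest0]
  obtain ⟨hb, J, -, hJ2, hJ3⟩ := loop_inv D θ z hTF al r cap m0 m1 Q ul X0 X1 x1 hJ 40 1
    1099511627776 best0 le_rfl (by
      rw [Nat.sub_self, pow_zero]
      unfold vR
      norm_num)
  refine hR2 bRL bPROD bREST1 bTAU θ z _ _ _ _ hTF.fa r (aR cap) (aR m0) (aR m1) _ (aR ul) _ _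
    (aR x1) _ (al = true) J (aR_nonneg _) ?_ (vR_nonneg _) ?_ ?_ ?_ hJ3
  · have : (0 : ℝ) < X0 := by exact_mod_cast hX0
    positivity
  · rcases hx1 with h | h
    · exact Or.inl h
    · right
      unfold xR aR
      have : (x1 : ℝ) ≤ N.xgN D.I.kN := by exact_mod_cast h
      exact div_le_div_of_nonneg_right this (by positivity)
  · intro hal
    have h1 : best0 = N.expUp (Nat.shiftLeft (N.mulL m0 X0) 13) := by
      rw [hbest0, hal]
      rfl
    refine le_trans ?_ (vR_mono hb)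
    rw [h1]
    refine le_trans ?_ (hE _).1
    apply Real.exp_le_exp.2
    have e : Nat.shiftLeft (N.mulL m0 X0) 13 = N.mulL m0 X0 * 2 ^ 13 := Nat.shiftLeft_eq _ _
    rw [e]
    have h3 := aR_mulL m0 X0
    have e2 : vR (N.mulL m0 X0 * 2 ^ 13) = aR (N.mulL m0 X0) / 2 := by
      unfold vR aR
      push_cast
      ring
    rw [e2]
    linarith
  · intro j h1 h2 h3
    exact hJ2 j h1 h2 h3

end Pool.Agent.Helper13.PT
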